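import Pool.Agent.U174.AK.Stm

/-! Project AK, package RES: adjoining one residue. -/

set_option autoImplicit false

namespace Pool.Agent.U884.AKR

open Pool.Agent.U174.AK IsLocalRing Polynomial

theorem rs_coe {K : Type} [Field K] (O : ValuationSubring K) (a : O) : rs O (a : K) = residue O a := by
  unfold rs
  rw [dif_pos a.2]

theorem rs_zero {K : Type} [Field K] (O : ValuationSubring K) : rs O 0 = 0 := by
  have h := rs_coe O 0
  rw [map_zero] at h
  exact h

theorem rs_mul {K : Type} [Field K] (O : ValuationSubring K) (a : K) (u : O) (hu : IsUnit u) :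
    rs O (a * u) = rs O a * residue O u := by
  by_cases h : a ∈ O
  · have h1 : a * u = (((⟨a, h⟩ : O) * u : O) : K) := rfl
    rw [h1, rs_coe, map_mul, ← rs_coe O ⟨a, h⟩]
  · have h2 : a * u ∉ O := by
      intro h3
      obtain ⟨w, rfl⟩ := hu
      apply h
      have h4 : ((w : O) : K) * (((w⁻¹ : Oˣ) : O) : K) = 1 := by
        have h5 : (w : O) * ((w⁻¹ : Oˣ) : O) = 1 := Units.mul_inv w
        exact_mod_cast congrArg (fun t : O => (t : K)) h5
      have h6 : a = (a * ((w : O) : K)) * (((w⁻¹ : Oˣ) : O) : K) := by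
        rw [mul_assoc, h4, mul_one]
      rw [h6]
      exact O.mul_mem _ _ h3 ((w⁻¹ : Oˣ) : O).2
    unfold rs
    rw [dif_neg h2, dif_neg h, zero_mul]

theorem val_unit {K : Type} [Field K] (O : ValuationSubring K) (u : O) (hu : IsUnit u) :
    O.valuation (u : K) = 1 := (O.valuation_eq_one_iff u).1 hu

section main

variable {F L : Type} [Field F] [Field L] {O : ValuationSubring F} {P : ValuationSubring L}
  {ρ : ResidueField O →+* ResidueField P} {ν : O.ValueGroup →*₀ P.ValueGroup} {E : Subfield F}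
  {g : E →+* L}

/-- the valuation ring of `E` -/
abbrev OE (O : ValuationSubring F) (E : Subfield F) : ValuationSubring E := O.comap E.subtype

/-- the inclusion -/
def iE (O : ValuationSubring F) (E : Subfield F) : VEmb (OE O E) O := ⟨E.subtype, fun _ => Iff.rfl⟩

/-- the embedding `g` -/
def jE (hν : StrictMono ν) (hp : Part O P ρ ν E g) : VEmb (OE O E) P := ⟨g, fun x => by
  rw [← P.valuation_le_one_iff, hp.val, ← map_one ν, hν.le_iff_le, O.valuation_le_one_iff]
  exact Iff.rfl⟩

theorem j_res (hν : StrictMono ν) (hp : Part O P ρ ν E g) (a : ResidueField (OE O E)) :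
    (jE hν hp).res a = ρ ((iE O E).res a) := by
  obtain ⟨b, rfl⟩ := residue_surjective a
  rw [← rs_coe (OE O E) b, VEmb.res_rs, VEmb.res_rs]
  exact hp.res b

theorem j_res' (hν : StrictMono ν) (hp : Part O P ρ ν E g) :
    (jE hν hp).res = ρ.comp (iE O E).res := RingHom.ext (j_res hν hp)

/-- the conclusion of the key lemma -/
def Fac (O : ValuationSubring F) (P : ValuationSubring L) (ρ : ResidueField O →+* ResidueField P)
    (E : Subfield F) (g : E →+* L) (x : O) (y : P) (Q : E[X]) : Prop :=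
  ∃ (c : E) (z : O) (z' : P), c ≠ 0 ∧ IsUnit z ∧ IsUnit z' ∧
    Q.eval₂ E.subtype (x : F) = (c : F) * (z : F) ∧ Q.eval₂ g (y : L) = g c * (z' : L) ∧
    residue P z' = ρ (residue O z)

theorem key (hν : StrictMono ν) (hp : Part O P ρ ν E g) {x : O} {y : P} {r : ResidueField O}
    (hx : residue O x = r) (hy : residue P y = ρ r) (Q : E[X]) (hQ : Q ≠ 0)
    (hNZ : ∀ q : (ResidueField (OE O E))[X], q ≠ 0 → q.natDegree ≤ Q.natDegree →
      q.eval₂ (iE O E).res r ≠ 0) : Fac O P ρ E g x y Q := by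
  classical
  have hsup : Q.support.Nonempty := by
    rw [Finset.nonempty_iff_ne_empty, Ne, Polynomial.support_eq_empty]
    exact hQ
  obtain ⟨j₀, hj₀, hmax⟩ := Finset.exists_max_image Q.support
    (fun i => (OE O E).valuation (Q.coeff i)) hsup
  have hc : Q.coeff j₀ ≠ 0 := Polynomial.mem_support_iff.1 hj₀
  obtain ⟨c, hcd⟩ : ∃ c, c = Q.coeff j₀ := ⟨_, rfl⟩
  rw [← hcd] at hc
  have hmem : ∀ i, (C c⁻¹ * Q).coeff i ∈ OE O E := by
    intro i
    rw [coeff_C_mul, ← (OE O E).valuation_le_one_iff, map_mul, map_inv₀]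
    by_cases hi : i ∈ Q.support
    · have h1 := hmax i hi
      rw [← hcd] at h1
      have h2 : (0 : (OE O E).ValueGroup) < (OE O E).valuation c :=
        zero_lt_iff.mpr ((Valuation.ne_zero_iff _).mpr hc)
      rw [mul_comm, ← div_eq_mul_inv]
      exact (div_le_one₀ h2).2 h1
    · rw [Polynomial.notMem_support_iff.1 hi, map_zero, mul_zero]
      exact zero_le_one
  have hl : (C c⁻¹ * Q) ∈ Polynomial.lifts (OE O E).subtype := by
    rw [Polynomial.lifts_iff_coeff_lifts]
    intro n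
    exact ⟨⟨_, hmem n⟩, rfl⟩
  obtain ⟨q1, hq1⟩ := (Polynomial.mem_lifts _).1 hl
  have hQ1 : Q = C c * q1.map (OE O E).subtype := by
    rw [hq1, ← mul_assoc, ← C_mul, mul_inv_cancel₀ hc, C_1, one_mul]
  have hinj : Function.Injective (OE O E).subtype := Subtype.coe_injective
  have hdeg : (q1.map (residue (OE O E))).natDegree ≤ Q.natDegree := by
    refine natDegree_map_le.trans ?_
    rw [← natDegree_map_eq_of_injective hinj q1, hq1]
    exact natDegree_C_mul_le _ _
  have hne : q1.map (residue (OE O E)) ≠ 0 := by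
    intro h
    have h1 : (q1.map (residue (OE O E))).coeff j₀ = 0 := by rw [h, coeff_zero]
    rw [coeff_map] at h1
    have h2 : (OE O E).subtype (q1.coeff j₀) = 1 := by
      rw [← coeff_map, hq1, coeff_C_mul, ← hcd, inv_mul_cancel₀ hc]
    have h3 : q1.coeff j₀ = 1 := hinj (by rw [h2, map_one])
    rw [h3, map_one] at h1
    exact one_ne_zero h1
  have hR := hNZ _ hne hdeg
  rw [eval₂_map] at hR
  have e1 : residue O (q1.eval₂ (iE O E).ring x)
      = q1.eval₂ ((iE O E).res.comp (residue (OE O E))) r := by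
    rw [hom_eval₂, hx]
    rfl
  have e2 : residue P (q1.eval₂ (jE hν hp).ring y)
      = ρ (q1.eval₂ ((iE O E).res.comp (residue (OE O E))) r) := by
    rw [hom_eval₂, hy, hom_eval₂]
    have h1 : (residue P).comp (jE hν hp).ring = (jE hν hp).res.comp (residue (OE O E)) := rfl
    rw [h1, j_res', RingHom.comp_assoc]
  refine ⟨c, q1.eval₂ (iE O E).ring x, q1.eval₂ (jE hν hp).ring y, hc, ?_, ?_, ?_, ?_, ?_⟩
  · rw [← residue_ne_zero_iff_isUnit, e1]
    exact hR
  · rw [← residue_ne_zero_iff_isUnit, e2]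
    intro h
    exact hR ((map_eq_zero ρ).1 h)
  · have h1 : ((q1.eval₂ (iE O E).ring x : O) : F)
        = q1.eval₂ (E.subtype.comp (OE O E).subtype) (x : F) := by
      have h2 := hom_eval₂ q1 (iE O E).ring O.subtype x
      exact h2
    rw [h1, hQ1, eval₂_mul, eval₂_C, eval₂_map]
    rfl
  · have h1 : ((q1.eval₂ (jE hν hp).ring y : P) : L)
        = q1.eval₂ (g.comp (OE O E).subtype) (y : L) := by
      have h2 := hom_eval₂ q1 (jE hν hp).ring P.subtype y
      exact h2
    rw [h1, hQ1, eval₂_mul, eval₂_C, eval₂_map]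
  · rw [e1]
    exact e2

theorem fin_of (hS : S_SIMP) (hν : StrictMono ν) (hp : Part O P ρ ν E g) {x : O} {y : P}
    {r : ResidueField O} (hx : residue O x = r)
    (hred : ∀ Q : E[X], (Q.eval₂ E.subtype (x : F) = 0 ∧ Q.eval₂ g (y : L) = 0) ∨
      Fac O P ρ E g x y Q) :
    ∃ (E' : Subfield F) (g' : E' →+* L), Ext E g E' g' ∧
    Part O P ρ ν E' g' ∧ (∃ x ∈ E', x ∈ O ∧ rs O x = r) ∧
      ∀ x ∈ E', ∃ y ∈ E, O.valuation x = O.valuation y := by
  have q1 : ∀ Q : E[X], P.valuation (Q.eval₂ g (y : L)) = ν (O.valuation (Q.eval₂ E.subtype (x : F))) := by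
    intro Q
    rcases hred Q with h5 | ⟨c, z, z', hc, hz, hz', e, e', -⟩
    · rw [h5.1, h5.2, map_zero, map_zero, map_zero]
    · rw [e, e', map_mul, map_mul, val_unit O z hz, val_unit P z' hz', mul_one, mul_one, hp.val]
  have q2 : ∀ Q₁ Q₂ : E[X], Q₂.eval₂ E.subtype (x : F) ≠ 0 →
      rs P (Q₁.eval₂ g (y : L) / Q₂.eval₂ g (y : L))
        = ρ (rs O (Q₁.eval₂ E.subtype (x : F) / Q₂.eval₂ E.subtype (x : F))) := by
    intro Q₁ Q₂ hQ₂
    rcases hred Q₂ with h5 | ⟨c₂, z₂, z₂', hc₂, hz₂, hz₂', e₂, e₂', r₂⟩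
    · exact absurd h5.1 hQ₂
    rcases hred Q₁ with h5 | ⟨c₁, z₁, z₁', hc₁, hz₁, hz₁', e₁, e₁', r₁⟩
    · rw [h5.1, h5.2, zero_div, zero_div, rs_zero, rs_zero, map_zero]
    · obtain ⟨w₂, rfl⟩ := hz₂
      obtain ⟨w₂', rfl⟩ := hz₂'
      have a1 : Q₁.eval₂ E.subtype (x : F) / Q₂.eval₂ E.subtype (x : F)
          = ((c₁ / c₂ : E) : F) * ((z₁ * ((w₂⁻¹ : Oˣ) : O) : O) : F) := by
        have h6 : (((w₂⁻¹ : Oˣ) : O) : F) = (((w₂ : O) : F))⁻¹ := by
          have h5 : (w₂ : O) * ((w₂⁻¹ : Oˣ) : O) = 1 := Units.mul_inv w₂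
          have h7 : ((w₂ : O) : F) * (((w₂⁻¹ : Oˣ) : O) : F) = 1 := by
            exact_mod_cast congrArg (fun t : O => (t : F)) h5
          exact (eq_inv_of_mul_eq_one_right h7)
        have h8 : ((z₁ * ((w₂⁻¹ : Oˣ) : O) : O) : F) = (z₁ : F) * (((w₂⁻¹ : Oˣ) : O) : F) := rfl
        have h9 : ((c₁ / c₂ : E) : F) = (c₁ : F) / (c₂ : F) := rfl
        rw [e₁, e₂, h8, h6, h9]
        ring
      have a2 : Q₁.eval₂ g (y : L) / Q₂.eval₂ g (y : L)
          = g (c₁ / c₂) * ((z₁' * ((w₂'⁻¹ : Pˣ) : P) : P) : L) := by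
        have h6 : (((w₂'⁻¹ : Pˣ) : P) : L) = (((w₂' : P) : L))⁻¹ := by
          have h5 : (w₂' : P) * ((w₂'⁻¹ : Pˣ) : P) = 1 := Units.mul_inv w₂'
          have h7 : ((w₂' : P) : L) * (((w₂'⁻¹ : Pˣ) : P) : L) = 1 := by
            exact_mod_cast congrArg (fun t : P => (t : L)) h5
          exact (eq_inv_of_mul_eq_one_right h7)
        have h8 : ((z₁' * ((w₂'⁻¹ : Pˣ) : P) : P) : L) = (z₁' : L) * (((w₂'⁻¹ : Pˣ) : P) : L) := rfl
        rw [e₁', e₂', h8, h6, map_div₀]
        ring
      rw [a1, a2, rs_mul O _ _ (hz₁.mul (w₂⁻¹).isUnit), rs_mul P _ _ (hz₁'.mul (w₂'⁻¹).isUnit),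
        hp.res, map_mul, map_mul, map_mul, map_mul, r₁]
      congr 2
      have b1 : residue P ((w₂'⁻¹ : Pˣ) : P) = (residue P (w₂' : P))⁻¹ := by
        have h5 : (w₂' : P) * ((w₂'⁻¹ : Pˣ) : P) = 1 := Units.mul_inv w₂'
        have h7 := congrArg (residue P) h5
        rw [map_mul, map_one] at h7
        exact eq_inv_of_mul_eq_one_right h7
      have b2 : residue O ((w₂⁻¹ : Oˣ) : O) = (residue O (w₂ : O))⁻¹ := by
        have h5 : (w₂ : O) * ((w₂⁻¹ : Oˣ) : O) = 1 := Units.mul_inv w₂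
        have h7 := congrArg (residue O) h5
        rw [map_mul, map_one] at h7
        exact eq_inv_of_mul_eq_one_right h7
      rw [b1, b2, r₂, map_inv₀]
  obtain ⟨E', g', h1, h2, ⟨h3, -⟩, h4⟩ := hS F L O P ρ ν hν E g hp (x : F) (y : L) q1 q2
  refine ⟨E', g', h1, h2, ⟨x, h3, x.2, ?_⟩, ?_⟩
  · rw [rs_coe, hx]
  · intro z hz
    obtain ⟨Q₁, Q₂, hQ₂, rfl⟩ := h4 z hz
    rcases hred Q₂ with h5 | ⟨c₂, z₂, z₂', hc₂, hz₂, -, e₂, -, -⟩
    · exact absurd h5.1 hQ₂
    rcases hred Q₁ with h5 | ⟨c₁, z₁, z₁', hc₁, hz₁, -, e₁, -, -⟩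
    · exact ⟨0, E.zero_mem, by rw [h5.1, zero_div]⟩
    · refine ⟨((c₁ / c₂ : E) : F), (c₁ / c₂ : E).2, ?_⟩
      rw [e₁, e₂, map_div₀, map_mul, map_mul, val_unit O z₁ hz₁, val_unit O z₂ hz₂, mul_one,
        mul_one, ← map_div₀]
      rfl

/-- Hensel's lemma over `E` -/
theorem root_of {K : Type} [Field K] {R : ValuationSubring K} (hR : HenselianLocalRing R)
    {A : Type} [CommRing A] [IsLocalRing A] (φ : A →+* R) [IsLocalHom φ] (f : A[X]) (hf : f.Monic)
    (r : ResidueField R)
    (h0 : (f.map (residue A)).eval₂ (ResidueField.map φ) r = 0)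
    (h1 : (f.map (residue A)).derivative.eval₂ (ResidueField.map φ) r ≠ 0) :
    ∃ x : R, residue R x = r ∧ f.eval₂ φ x = 0 := by
  obtain ⟨a₀, rfl⟩ := residue_surjective r
  have e : ∀ p : A[X], residue R ((p.map φ).eval a₀)
      = (p.map (residue A)).eval₂ (ResidueField.map φ) (residue R a₀) := by
    intro p
    rw [eval_map, hom_eval₂, eval₂_map]
    rfl
  obtain ⟨x, hx, hx2⟩ := hR.is_henselian (f.map φ) (hf.map φ) a₀
    (by rw [← residue_eq_zero_iff, e, h0]) (by
      rw [← residue_ne_zero_iff_isUnit, derivative_map, e, ← derivative_map]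
      exact h1)
  refine ⟨x, ?_, ?_⟩
  · have h2 := (residue_eq_zero_iff _).2 hx2
    rw [map_sub, sub_eq_zero] at h2
    exact h2
  · rw [← eval_map]
    exact hx

theorem t_RES (hS : S_SIMP) : S_RES := by
  classical
  intro F L _ _ O P ρ ν hO hP hchar hν E g hp r
  by_cases halg : ∃ p : (ResidueField (OE O E))[X], p ≠ 0 ∧ p.eval₂ (iE O E).res r = 0
  · letI : Algebra (ResidueField (OE O E)) (ResidueField O) := (iE O E).res.toAlgebra
    have hal : IsAlgebraic (ResidueField (OE O E)) r := halg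
    have hint : IsIntegral (ResidueField (OE O E)) r := hal.isIntegral
    haveI := hchar
    haveI : CharZero (ResidueField (OE O E)) := (iE O E).res.charZero
    obtain ⟨m, hm⟩ : ∃ m, m = minpoly (ResidueField (OE O E)) r := ⟨_, rfl⟩
    have hmonic : m.Monic := by rw [hm]; exact minpoly.monic hint
    have hm0 : m.eval₂ (iE O E).res r = 0 := by
      rw [hm]
      exact minpoly.aeval _ r
    have hmin : ∀ q : (ResidueField (OE O E))[X], q ≠ 0 → q.natDegree < m.natDegree →
        q.eval₂ (iE O E).res r ≠ 0 := by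
      intro q hq hd h0
      have h1 := natDegree_le_natDegree (minpoly.degree_le_of_ne_zero (ResidueField (OE O E)) r hq h0)
      rw [← hm] at h1
      omega
    have hdpos : 0 < m.natDegree := by rw [hm]; exact minpoly.natDegree_pos hint
    have hder : m.derivative.eval₂ (iE O E).res r ≠ 0 := by
      apply hmin
      · intro h
        have h2 := derivative_eq_zero.1 h
        omega
      · exact natDegree_derivative_lt hdpos.ne'
    have hlift : m ∈ Polynomial.lifts (residue (OE O E)) := by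
      rw [Polynomial.lifts_iff_coeff_lifts]
      intro n
      exact residue_surjective _
    obtain ⟨f, hf1, hf2, hf3⟩ := Polynomial.lifts_and_natDegree_eq_and_monic hlift hmonic
    obtain ⟨x, hx, hx0⟩ := root_of hO (iE O E).ring f hf3 r (by rw [hf1]; exact hm0)
      (by rw [hf1]; exact hder)
    have hjm : ∀ p : (ResidueField (OE O E))[X], p.eval₂ (jE hν hp).res (ρ r)
        = ρ (p.eval₂ (iE O E).res r) := by
      intro p
      rw [hom_eval₂, j_res']
    obtain ⟨y, hy, hy0⟩ := root_of hP (jE hν hp).ring f hf3 (ρ r) (by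
        rw [hf1]
        exact (hjm m).trans (by rw [hm0, map_zero]))
      (by
        rw [hf1]
        intro h
        exact hder ((map_eq_zero ρ).1 ((hjm _).symm.trans h)))
    apply fin_of hS hν hp (y := y) hx
    intro Q
    have hfE : (f.map (OE O E).subtype).Monic := hf3.map _
    have hdf : (f.map (OE O E).subtype).natDegree = m.natDegree := by
      rw [hf3.natDegree_map, hf2]
    have z1 : (f.map (OE O E).subtype).eval₂ E.subtype (x : F) = 0 := by
      rw [eval₂_map]
      have h2 := hom_eval₂ f (iE O E).ring O.subtype x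
      rw [hx0, map_zero] at h2
      exact h2.symm
    have z2 : (f.map (OE O E).subtype).eval₂ g (y : L) = 0 := by
      rw [eval₂_map]
      have h2 := hom_eval₂ f (jE hν hp).ring P.subtype y
      rw [hy0, map_zero] at h2
      exact h2.symm
    have hdiv := modByMonic_add_div Q (f.map (OE O E).subtype)
    have w1 : Q.eval₂ E.subtype (x : F) = (Q %ₘ f.map (OE O E).subtype).eval₂ E.subtype (x : F) := by
      conv_lhs => rw [← hdiv]
      rw [eval₂_add, eval₂_mul, z1, zero_mul, add_zero]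
    have w2 : Q.eval₂ g (y : L) = (Q %ₘ f.map (OE O E).subtype).eval₂ g (y : L) := by
      conv_lhs => rw [← hdiv]
      rw [eval₂_add, eval₂_mul, z2, zero_mul, add_zero]
    by_cases hQ : Q %ₘ f.map (OE O E).subtype = 0
    · left
      rw [w1, w2, hQ, eval₂_zero, eval₂_zero]
      exact ⟨rfl, rfl⟩
    · right
      have hk := key hν hp hx hy (Q %ₘ f.map (OE O E).subtype) hQ (fun q hq hd => by
        apply hmin q hq
        refine lt_of_le_of_lt hd ?_
        rw [← hdf]
        exact natDegree_modByMonic_lt Q hfE (by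
          intro h1
          rw [h1, natDegree_one] at hdf
          omega))
      unfold Fac at hk ⊢
      rw [w1, w2]
      exact hk
  · push Not at halg
    obtain ⟨x, hx⟩ := residue_surjective r
    obtain ⟨y, hy⟩ := residue_surjective (ρ r)
    apply fin_of hS hν hp (y := y) hx
    intro Q
    by_cases hQ : Q = 0
    · left
      rw [hQ, eval₂_zero, eval₂_zero]
      exact ⟨rfl, rfl⟩
    · right
      exact key hν hp hx hy Q hQ (fun q hq _ => halg q hq)

end main

end Pool.Agent.U884.AKR
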